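import Mathlib

set_option autoImplicit false

/-!
Auxiliary facts for the Fricke trace polynomials: Chebyshev-like polynomials and their coefficients.
-/

namespace Pool.Agent.Work.MP_9614a6_lc

open Polynomial

/-- `cheb n` is the polynomial `S_{n-1}`: `cheb 0 = 0`, `cheb 1 = 1`,
`cheb (n+2) = X * cheb (n+1) - cheb n`. -/
noncomputable def cheb : ℕ → ℤ[X]
  | 0 => 0
  | 1 => 1
  | (n + 2) => X * cheb (n + 1) - cheb n

theorem cheb_zero : cheb 0 = 0 := by simp [cheb]

theorem cheb_one : cheb 1 = 1 := by simp [cheb]

theorem cheb_add_two (n : ℕ) : cheb (n + 2) = X * cheb (n + 1) - cheb n := by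
  simp [cheb]

theorem cheb_coeff_eq_zero_of_le : ∀ (n k : ℕ), n ≤ k → (cheb n).coeff k = 0 := by
  intro n
  induction n using Nat.strong_induction_on with
  | _ n ih =>
    intro k hk
    match n, ih, hk with
    | 0, _, _ => simp [cheb_zero]
    | 1, _, hk => rw [cheb_one, coeff_one]; simp; omega
    | n + 2, ih, hk =>
      rw [cheb_add_two, coeff_sub, ih n (by omega) k (by omega)]
      obtain ⟨k', rfl⟩ : ∃ k', k = k' + 1 := ⟨k - 1, by omega⟩
      rw [coeff_X_mul, ih (n + 1) (by omega) k' (by omega)]
      simp

theorem cheb_coeff_parity : ∀ (n k : ℕ), Even (n + k) → (cheb n).coeff k = 0 := by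
  intro n
  induction n using Nat.strong_induction_on with
  | _ n ih =>
    intro k hk
    match n, ih, hk with
    | 0, _, _ => simp [cheb_zero]
    | 1, _, hk =>
      rw [cheb_one, coeff_one]
      rcases k with _ | k
      · simp at hk
      · simp
    | n + 2, ih, hk =>
      have h1 : Even (n + k) := by
        rcases hk with ⟨r, hr⟩
        exact ⟨r - 1, by omega⟩
      rw [cheb_add_two, coeff_sub, ih n (by omega) k h1]
      rcases k with _ | k
      · simp
      · rw [coeff_X_mul, ih (n + 1) (by omega) k (by
          rcases h1 with ⟨r, hr⟩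
          exact ⟨r, by omega⟩)]
        simp

theorem cheb_coeff : ∀ (n k a : ℕ), n = k + 2 * a + 1 →
    (cheb n).coeff k = (-1) ^ a * ((k + a).choose a : ℤ) := by
  intro n
  induction n using Nat.strong_induction_on with
  | _ n ih =>
    intro k a hn
    match n, ih, hn with
    | 0, _, h => omega
    | 1, _, h =>
      have hk : k = 0 := by omega
      have ha : a = 0 := by omega
      subst hk; subst ha
      simp [cheb_one]
    | n + 2, ih, h =>
      rw [cheb_add_two, coeff_sub]
      rcases k with _ | k
      · rcases a with _ | a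
        · omega
        · rw [ih n (by omega) 0 a (by omega)]
          simp [pow_succ]
      · rw [coeff_X_mul, ih (n + 1) (by omega) k a (by omega)]
        rcases a with _ | a
        · rw [cheb_coeff_eq_zero_of_le n (k + 1) (by omega)]
          simp
        · rw [ih n (by omega) (k + 1) a (by omega)]
          have : (k + 1 + (a + 1)).choose (a + 1) = (k + 1 + a).choose a + (k + (a + 1)).choose (a + 1) := by
            have h2 : k + 1 + (a + 1) = (k + 1 + a) + 1 := by ring
            rw [h2, Nat.choose_succ_succ]
            congr 2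
            ring
          rw [this]
          push_cast
          ring

theorem two_pow_le_centralBinom (a : ℕ) : 2 ^ a ≤ Nat.centralBinom a := by
  induction a with
  | zero => simp
  | succ a ih =>
    have h := Nat.succ_mul_centralBinom_succ a
    have h3 : (a + 1) * (2 * Nat.centralBinom a) ≤ (a + 1) * Nat.centralBinom (a + 1) := by
      rw [h]
      nlinarith [Nat.zero_le (Nat.centralBinom a), Nat.zero_le a, Nat.zero_le (a * Nat.centralBinom a)]
    have h4 := Nat.le_of_mul_le_mul_left h3 (by omega)
    calc 2 ^ (a + 1) = 2 * 2 ^ a := by ring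
      _ ≤ 2 * Nat.centralBinom a := by omega
      _ ≤ _ := h4

theorem two_pow_le_choose (k a : ℕ) (h : a ≤ k) : 2 ^ a ≤ (k + a).choose a := by
  calc 2 ^ a ≤ Nat.centralBinom a := two_pow_le_centralBinom a
    _ = (2 * a).choose a := rfl
    _ ≤ (k + a).choose a := Nat.choose_le_choose a (by omega)

end Pool.Agent.Work.MP_9614a6_lc
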