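import Mathlib

set_option autoImplicit false

/-!
Definitions for the sparse bit-size problem of Fricke trace polynomials.
-/

namespace Pool.Agent.Work.MP_9614a6_lc

/-- `SL(2, ℂ)`. -/
abbrev SL2C := Matrix.SpecialLinearGroup (Fin 2) ℂ

/-- The trace of an element of `SL(2, ℂ)`. -/
def tr (A : SL2C) : ℂ := Matrix.trace (A : Matrix (Fin 2) (Fin 2) ℂ)

/-- `f ∈ ℤ[x, y, z]` is the Fricke trace polynomial of the word `w` of the free group on the two
generators `0, 1` (`a` and `b`): `Tr (w (A, B)) = f (Tr A, Tr B, Tr (A * B))` for all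
`A, B ∈ SL(2, ℂ)`. -/
def IsFricke (w : FreeGroup (Fin 2)) (f : MvPolynomial (Fin 3) ℤ) : Prop :=
  ∀ A B : SL2C,
    tr (FreeGroup.lift ![A, B] w) = MvPolynomial.aeval ![tr A, tr B, tr (A * B)] f

/-- `w` has cyclically reduced length `n`: some cyclically reduced word of length `n` represents a
conjugate of `w`. -/
def HasCyclicLength (w : FreeGroup (Fin 2)) (n : ℕ) : Prop :=
  ∃ L : List (Fin 2 × Bool),
    FreeGroup.IsCyclicallyReduced L ∧ L.length = n ∧ IsConj w (FreeGroup.mk L)

/-- The sparse bit-size: the sum over all monomials with nonzero coefficient of the length of the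
binary expansion of the absolute value of the coefficient. -/
noncomputable def bitSize (f : MvPolynomial (Fin 3) ℤ) : ℕ :=
  ∑ m ∈ f.support, (Nat.digits 2 (f.coeff m).natAbs).length

/-- `S n` is the maximum of the sparse bit-sizes of the Fricke trace polynomials of the words of
cyclically reduced length `n`. -/
noncomputable def S (n : ℕ) : ℕ :=
  sSup {s : ℕ | ∃ (w : FreeGroup (Fin 2)) (f : MvPolynomial (Fin 3) ℤ),
    HasCyclicLength w n ∧ IsFricke w f ∧ s = bitSize f}

end Pool.Agent.Work.MP_9614a6_lc
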