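import Pool.Agent.Work.MP_9614a6_lc.Mat

set_option autoImplicit false

namespace Pool.Agent.Work.MP_9614a6_lc

open MvPolynomial

/-- A univariate polynomial in the `i`-th variable. -/
noncomputable def uni (i : Fin 3) (p : Polynomial ℤ) : MvPolynomial (Fin 3) ℤ :=
  Polynomial.aeval (X i) p

theorem uni_add (i : Fin 3) (p q : Polynomial ℤ) : uni i (p + q) = uni i p + uni i q := by
  simp [uni]

theorem uni_monomial (i : Fin 3) (n : ℕ) (c : ℤ) :
    uni i (Polynomial.monomial n c) = monomial (Finsupp.single i n) c := by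
  rw [uni, Polynomial.aeval_monomial, ← MvPolynomial.C_mul_X_pow_eq_monomial]
  rfl

theorem coeff_uni_mul (p q r : Polynomial ℤ) (m : Fin 3 →₀ ℕ) :
    coeff m (uni 0 p * uni 1 q * uni 2 r) = p.coeff (m 0) * q.coeff (m 1) * r.coeff (m 2) := by
  induction p using Polynomial.induction_on' with
  | add p p' hp hp' => rw [uni_add, add_mul, add_mul, coeff_add, hp, hp']; simp; ring
  | monomial a ca =>
    induction q using Polynomial.induction_on' with
    | add q q' hq hq' => rw [uni_add, mul_add, add_mul, coeff_add, hq, hq']; simp; ring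
    | monomial b cb =>
      induction r using Polynomial.induction_on' with
      | add r r' hr hr' => rw [uni_add, mul_add, coeff_add, hr, hr']; simp; ring
      | monomial c cc =>
        rw [uni_monomial, uni_monomial, uni_monomial, monomial_mul, monomial_mul, coeff_monomial]
        simp only [Polynomial.coeff_monomial]
        have key : (Finsupp.single (0 : Fin 3) a + Finsupp.single 1 b + Finsupp.single 2 c = m) ↔
            (a = m 0 ∧ b = m 1 ∧ c = m 2) := by
          constructor
          · rintro rfl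
            simp
          · rintro ⟨rfl, rfl, rfl⟩
            ext i
            fin_cases i <;> simp
        by_cases h : a = m 0 ∧ b = m 1 ∧ c = m 2
        · rw [if_pos (key.mpr h), if_pos h.1, if_pos h.2.1, if_pos h.2.2]
        · rw [if_neg (fun hh => h (key.mp hh))]
          by_cases h0 : a = m 0
          · by_cases h1 : b = m 1
            · have h2 : ¬ (c = m 2) := fun h2 => h ⟨h0, h1, h2⟩
              rw [if_neg h2]; simp
            · rw [if_neg h1]; simp
          · rw [if_neg h0]; simp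

/-- The Fricke polynomial of `a ^ (p+2) * b ^ (q+2) * (a * b) ^ (r+2)`. -/
noncomputable def famPoly (p q r : ℕ) : MvPolynomial (Fin 3) ℤ :=
  uni 0 (cheb (p + 2)) * uni 1 (cheb (q + 2)) * uni 2 (cheb (r + 4)) +
  uni 0 (cheb (p + 2)) * uni 1 (cheb (q + 2)) * uni 2 (cheb (r + 2)) +
  uni 0 (cheb (p + 2)) * uni 1 (cheb q) * uni 2 (cheb (r + 2)) +
  uni 0 (cheb p) * uni 1 (cheb (q + 2)) * uni 2 (cheb (r + 2)) -
  uni 0 (cheb (p + 3)) * uni 1 (cheb (q + 1)) * uni 2 (cheb (r + 3)) -
  uni 0 (cheb (p + 1)) * uni 1 (cheb (q + 3)) * uni 2 (cheb (r + 3)) -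
  uni 0 (cheb (p + 1)) * uni 1 (cheb (q + 1)) * uni 2 (cheb (r + 3)) -
  uni 0 (cheb (p + 1)) * uni 1 (cheb (q + 1)) * uni 2 (cheb (r + 1))

theorem pow_eq (A : SL2C) (n : ℕ) : (A : M2) ^ (n + 1) =
    Polynomial.aeval (tr A) (cheb (n + 1)) • (A : M2) -
      Polynomial.aeval (tr A) (cheb n) • (1 : M2) := by
  induction n with
  | zero => simp [cheb_zero, cheb_one]
  | succ n ih =>
    rw [pow_succ, ih, cheb_add_two n]
    simp only [sub_mul, smul_mul_assoc, mul_self, one_mul, map_sub, map_mul, Polynomial.aeval_X]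
    module

theorem trace_ABAB (A B : SL2C) :
    Matrix.trace ((A : M2) * (B : M2) * ((A : M2) * (B : M2))) = tr (A * B) ^ 2 - 2 := by
  have h := mul_self (A * B)
  rw [Matrix.SpecialLinearGroup.coe_mul] at h
  rw [h]
  simp [tr]
  ring

theorem trace_AAB (A B : SL2C) :
    Matrix.trace ((A : M2) * ((A : M2) * (B : M2))) = tr A * tr (A * B) - tr B := by
  rw [← mul_assoc, mul_self]
  simp [tr, sub_mul]

theorem trace_BAB (A B : SL2C) :
    Matrix.trace ((B : M2) * ((A : M2) * (B : M2))) = tr B * tr (A * B) - tr A := by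
  rw [BAB_eq]
  simp [tr]
  ring

/-- The word `a ^ (p+2) * b ^ (q+2) * (a * b) ^ (r+2)` as a list of letters. -/
def famWord (p q r : ℕ) : List (Fin 2 × Bool) :=
  List.replicate (p + 2) (0, true) ++ (List.replicate (q + 2) (1, true) ++
    (List.replicate (r + 2) [((0 : Fin 2), true), (1, true)]).flatten)

theorem famWord_length (p q r : ℕ) : (famWord p q r).length = p + q + 2 * r + 8 := by
  simp [famWord, List.length_flatten]
  ring

theorem famWord_snd (p q r : ℕ) : ∀ x ∈ famWord p q r, x.2 = true := by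
  intro x hx
  simp only [famWord, List.mem_append, List.mem_flatten] at hx
  rcases hx with hx | hx | ⟨l, hl, hx⟩
  · rw [List.eq_of_mem_replicate hx]
  · rw [List.eq_of_mem_replicate hx]
  · rw [List.eq_of_mem_replicate hl] at hx
    simp at hx
    rcases hx with rfl | rfl <;> rfl

theorem isCyclicallyReduced_of_snd {L : List (Fin 2 × Bool)} (h : ∀ x ∈ L, x.2 = true) :
    FreeGroup.IsCyclicallyReduced L := by
  refine ⟨?_, ?_⟩
  · apply List.Pairwise.isChain
    rw [List.pairwise_iff_getElem]
    intro i j hi hj _ _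
    rw [h _ (List.getElem_mem hi), h _ (List.getElem_mem hj)]
  · intro a ha b hb _
    rw [h a (List.mem_of_getLast? ha), h b (List.mem_of_head? hb)]

theorem lift_famWord (A B : SL2C) (p q r : ℕ) :
    FreeGroup.lift ![A, B] (FreeGroup.mk (famWord p q r)) =
      A ^ (p + 2) * (B ^ (q + 2) * (A * B) ^ (r + 2)) := by
  rw [FreeGroup.lift_mk, famWord]
  simp [List.map_append, List.prod_append, List.map_flatten, List.prod_flatten]

theorem isFricke_fam (p q r : ℕ) : IsFricke (FreeGroup.mk (famWord p q r)) (famPoly p q r) := by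
  intro A B
  rw [lift_famWord, tr]
  simp only [Matrix.SpecialLinearGroup.coe_mul, Matrix.SpecialLinearGroup.coe_pow]
  have hC := pow_eq (A * B) (r + 1)
  rw [Matrix.SpecialLinearGroup.coe_mul] at hC
  rw [hC, pow_eq A (p + 1), pow_eq B (q + 1)]
  have e : ∀ (i : Fin 3) (f : Polynomial ℤ),
      aeval ![tr A, tr B, tr (A * B)] (uni i f) =
        Polynomial.aeval (![tr A, tr B, tr (A * B)] i) f := by
    intro i f
    rw [uni, ← Polynomial.aeval_algHom_apply]
    simp
  simp only [famPoly, map_add, map_sub, map_mul, e]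
  simp only [Matrix.cons_val_zero, Matrix.cons_val_one, Matrix.cons_val]
  have hp2 : cheb (p + 2) = Polynomial.X * cheb (p + 1) - cheb p := cheb_add_two p
  have hp3 : cheb (p + 3) = Polynomial.X * cheb (p + 2) - cheb (p + 1) := cheb_add_two (p + 1)
  have hq2 : cheb (q + 2) = Polynomial.X * cheb (q + 1) - cheb q := cheb_add_two q
  have hq3 : cheb (q + 3) = Polynomial.X * cheb (q + 2) - cheb (q + 1) := cheb_add_two (q + 1)
  have hr3 : cheb (r + 3) = Polynomial.X * cheb (r + 2) - cheb (r + 1) := cheb_add_two (r + 1)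
  have hr4 : cheb (r + 4) = Polynomial.X * cheb (r + 3) - cheb (r + 2) := cheb_add_two (r + 2)
  have hP : Polynomial.aeval (tr A) (cheb p) =
      tr A * Polynomial.aeval (tr A) (cheb (p + 1)) - Polynomial.aeval (tr A) (cheb (p + 2)) := by
    rw [hp2]; simp
  have hQ : Polynomial.aeval (tr B) (cheb q) =
      tr B * Polynomial.aeval (tr B) (cheb (q + 1)) - Polynomial.aeval (tr B) (cheb (q + 2)) := by
    rw [hq2]; simp
  have hP3 : Polynomial.aeval (tr A) (cheb (p + 3)) =
      tr A * Polynomial.aeval (tr A) (cheb (p + 2)) - Polynomial.aeval (tr A) (cheb (p + 1)) := by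
    rw [hp3]; simp
  have hQ3 : Polynomial.aeval (tr B) (cheb (q + 3)) =
      tr B * Polynomial.aeval (tr B) (cheb (q + 2)) - Polynomial.aeval (tr B) (cheb (q + 1)) := by
    rw [hq3]; simp
  have hR3 : Polynomial.aeval (tr (A * B)) (cheb (r + 3)) =
      tr (A * B) * Polynomial.aeval (tr (A * B)) (cheb (r + 2)) -
        Polynomial.aeval (tr (A * B)) (cheb (r + 1)) := by
    rw [hr3]; simp
  have hR4 : Polynomial.aeval (tr (A * B)) (cheb (r + 4)) =
      tr (A * B) * Polynomial.aeval (tr (A * B)) (cheb (r + 3)) -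
        Polynomial.aeval (tr (A * B)) (cheb (r + 2)) := by
    rw [hr4]; simp
  rw [hP, hQ, hP3, hQ3, hR4, hR3]
  have t1 := trace_ABAB A B
  have t2 := trace_AAB A B
  have t3 := trace_BAB A B
  have t4 : Matrix.trace ((A : M2) * (B : M2)) = tr (A * B) := by simp [tr]
  have t5 : Matrix.trace (A : M2) = tr A := rfl
  have t6 : Matrix.trace (B : M2) = tr B := rfl
  simp only [sub_mul, mul_sub, smul_mul_assoc, mul_smul_comm, one_mul, mul_one,
    Matrix.trace_sub, Matrix.trace_smul, smul_eq_mul, ← mul_assoc] at *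
  simp only [t1, t2, t3, t4, t5, t6, Matrix.trace_one, Fintype.card_fin]
  push_cast
  ring

end Pool.Agent.Work.MP_9614a6_lc
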