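import Pool.Agent.Work.MP_9614a6_lc.Mat

set_option autoImplicit false

namespace Pool.Agent.Work.MP_9614a6_lc

open MvPolynomial

/-- Coefficients bounded by `N`, exponents bounded by `d`. -/
def Bd (f : MvPolynomial (Fin 3) ℤ) (d N : ℕ) : Prop :=
  (∀ m, (f.coeff m).natAbs ≤ N) ∧ (∀ m, f.coeff m ≠ 0 → ∀ i, m i ≤ d)

theorem Bd.mono {f : MvPolynomial (Fin 3) ℤ} {d N d' N' : ℕ} (h : Bd f d N) (hd : d ≤ d')
    (hN : N ≤ N') : Bd f d' N' :=
  ⟨fun m => (h.1 m).trans hN, fun m hm i => (h.2 m hm i).trans hd⟩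

theorem Bd.neg {f : MvPolynomial (Fin 3) ℤ} {d N : ℕ} (h : Bd f d N) : Bd (-f) d N :=
  ⟨fun m => by simpa using h.1 m, fun m hm i => h.2 m (by simpa using hm) i⟩

theorem Bd.add {f g : MvPolynomial (Fin 3) ℤ} {d N M : ℕ} (h : Bd f d N) (h' : Bd g d M) :
    Bd (f + g) d (N + M) := by
  refine ⟨fun m => ?_, fun m hm i => ?_⟩
  · rw [coeff_add]
    exact (Int.natAbs_add_le _ _).trans (Nat.add_le_add (h.1 m) (h'.1 m))
  · rw [coeff_add] at hm
    by_cases hf : f.coeff m = 0
    · exact h'.2 m (by rw [hf, zero_add] at hm; exact hm) i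
    · exact h.2 m hf i

theorem Bd.X_mul {f : MvPolynomial (Fin 3) ℤ} {d N : ℕ} (j : Fin 3) (h : Bd f d N) :
    Bd (X j * f) (d + 1) N := by
  refine ⟨fun m => ?_, fun m hm i => ?_⟩
  · rw [coeff_X_mul']
    split_ifs
    · exact h.1 _
    · simp
  · rw [coeff_X_mul'] at hm
    split_ifs at hm with hj
    · have := h.2 _ hm i
      rw [Finsupp.tsub_apply] at this
      have h2 : (Finsupp.single j 1 : Fin 3 →₀ ℕ) i ≤ 1 := by
        rw [Finsupp.single_apply]; split_ifs <;> simp
      omega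
    · exact absurd rfl hm

theorem Bd.zero (d N : ℕ) : Bd 0 d N := ⟨by simp, by simp⟩

theorem Bd.one (d : ℕ) : Bd 1 d 1 := by
  refine ⟨fun m => ?_, fun m hm i => ?_⟩
  · rw [coeff_one]; split_ifs <;> simp
  · rw [coeff_one] at hm
    split_ifs at hm with h
    · subst h; simp
    · exact absurd rfl hm

theorem bd_wordRep : ∀ (L : List (Fin 2 × Bool)) (i : Fin 4),
    Bd (wordRep L i) (2 * L.length) (8 ^ L.length)
  | [], i => by
    fin_cases i <;> simp [wordRep, Bd.one, Bd.zero]
  | (0, true) :: L, i => by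
    have h := bd_wordRep L
    have h0 : ∀ i, Bd (wordRep L i) (2 * L.length + 1) (8 ^ L.length) :=
      fun i => (h i).mono (by omega) le_rfl
    have h1 : ∀ i j, Bd (X j * wordRep L i) (2 * L.length + 1) (8 ^ L.length) :=
      fun i j => (h i).X_mul j
    have e1 : (((0 : Fin 2), true) :: L).length = L.length + 1 := rfl
    rw [wordRep, e1, pow_succ]
    fin_cases i
    · exact (h0 1).neg.mono (by omega) (by omega)
    · exact ((h0 0).add (h1 1 0)).mono (by omega) (by omega)
    · exact (h0 3).neg.mono (by omega) (by omega)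
    · exact ((h0 2).add (h1 3 0)).mono (by omega) (by omega)
  | (0, false) :: L, i => by
    have h := bd_wordRep L
    have h0 : ∀ i, Bd (wordRep L i) (2 * L.length + 1) (8 ^ L.length) :=
      fun i => (h i).mono (by omega) le_rfl
    have h1 : ∀ i j, Bd (X j * wordRep L i) (2 * L.length + 1) (8 ^ L.length) :=
      fun i j => (h i).X_mul j
    have e1 : (((0 : Fin 2), false) :: L).length = L.length + 1 := rfl
    rw [wordRep, e1, pow_succ]
    fin_cases i
    · exact ((h1 0 0).add (h0 1)).mono (by omega) (by omega)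
    · exact (h0 0).neg.mono (by omega) (by omega)
    · exact ((h1 2 0).add (h0 3)).mono (by omega) (by omega)
    · exact (h0 2).neg.mono (by omega) (by omega)
  | (1, true) :: L, i => by
    have h := bd_wordRep L
    have h0 : ∀ i, Bd (wordRep L i) (2 * L.length + 2) (8 ^ L.length) :=
      fun i => (h i).mono (by omega) le_rfl
    have h1 : ∀ i j, Bd (X j * wordRep L i) (2 * L.length + 2) (8 ^ L.length) :=
      fun i j => ((h i).X_mul j).mono (by omega) le_rfl
    have h2 : ∀ i j k, Bd (X k * (X j * wordRep L i)) (2 * L.length + 2) (8 ^ L.length) :=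
      fun i j k => (((h i).X_mul j).X_mul k).mono (by omega) le_rfl
    have e1 : (((1 : Fin 2), true) :: L).length = L.length + 1 := rfl
    rw [wordRep, e1, pow_succ]
    fin_cases i
    · exact ((h0 2).neg.add ((h1 1 2).add ((h2 1 1 0).neg.add (h1 3 0).neg))).mono
        (by omega) (by omega)
    · exact ((h1 1 1).add (h0 3)).mono (by omega) (by omega)
    · exact ((h0 0).add ((h1 1 0).add ((h1 2 1).add (h1 3 2)))).mono (by omega) (by omega)
    · exact (h0 1).neg.mono (by omega) (by omega)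
  | (1, false) :: L, i => by
    have h := bd_wordRep L
    have h0 : ∀ i, Bd (wordRep L i) (2 * L.length + 2) (8 ^ L.length) :=
      fun i => (h i).mono (by omega) le_rfl
    have h1 : ∀ i j, Bd (X j * wordRep L i) (2 * L.length + 2) (8 ^ L.length) :=
      fun i j => ((h i).X_mul j).mono (by omega) le_rfl
    have h2 : ∀ i j k, Bd (X k * (X j * wordRep L i)) (2 * L.length + 2) (8 ^ L.length) :=
      fun i j k => (((h i).X_mul j).X_mul k).mono (by omega) le_rfl
    have e1 : (((1 : Fin 2), false) :: L).length = L.length + 1 := rfl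
    rw [wordRep, e1, pow_succ]
    fin_cases i
    · exact ((h1 0 1).add ((h0 2).add ((h1 1 2).neg.add ((h2 1 1 0).add (h1 3 0))))).mono
        (by omega) (by omega)
    · exact (h0 3).neg.mono (by omega) (by omega)
    · exact ((h0 0).neg.add ((h1 1 0).neg.add (h1 3 2).neg)).mono (by omega) (by omega)
    · exact ((h1 3 1).add (h0 1)).mono (by omega) (by omega)

theorem bd_trPoly (L : List (Fin 2 × Bool)) :
    Bd (trPoly (wordRep L)) (2 * L.length + 1) (8 ^ (L.length + 1)) := by
  have h := bd_wordRep L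
  have h0 : ∀ i, Bd (wordRep L i) (2 * L.length + 1) (8 ^ L.length) :=
    fun i => (h i).mono (by omega) le_rfl
  have h1 : ∀ i j, Bd (X j * wordRep L i) (2 * L.length + 1) (8 ^ L.length) :=
    fun i j => (h i).X_mul j
  rw [pow_succ]
  exact ((h0 0).add ((h0 0).add ((h1 1 0).add ((h1 2 1).add (h1 3 2))))).mono
    (by omega) (by omega)

theorem bitSize_le {f : MvPolynomial (Fin 3) ℤ} {d k : ℕ} (h : Bd f d (8 ^ k)) :
    bitSize f ≤ (d + 1) ^ 3 * (3 * k + 1) := by
  have hbit : ∀ m ∈ f.support, (Nat.digits 2 (f.coeff m).natAbs).length ≤ 3 * k + 1 := by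
    intro m _
    rw [Nat.digits_length_le_iff (by norm_num)]
    have := h.1 m
    have e : (8 : ℕ) ^ k = 2 ^ (3 * k) := by rw [pow_mul]; norm_num
    rw [e] at this
    calc (f.coeff m).natAbs ≤ 2 ^ (3 * k) := this
      _ < 2 ^ (3 * k + 1) := Nat.pow_lt_pow_right (by norm_num) (by omega)
  have hcard : f.support.card ≤ (d + 1) ^ 3 := by
    have hsub : f.support.card ≤
        (Fintype.piFinset (fun _ : Fin 3 => Finset.range (d + 1))).card := by
      apply Finset.card_le_card_of_injOn (fun m => (fun i => m i : Fin 3 → ℕ))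
      · intro m hm
        rw [Finset.mem_coe, Fintype.mem_piFinset]
        intro i
        have := h.2 m (by simpa using hm) i
        rw [Finset.mem_range]
        change m i < d + 1
        omega
      · intro m _ m' _ hmm
        ext i
        exact congrFun hmm i
    simpa using hsub
  calc bitSize f ≤ ∑ m ∈ f.support, (3 * k + 1) := Finset.sum_le_sum hbit
    _ = f.support.card * (3 * k + 1) := by simp
    _ ≤ _ := Nat.mul_le_mul_right _ hcard

theorem upper_bound {w : FreeGroup (Fin 2)} {f : MvPolynomial (Fin 3) ℤ} {n : ℕ}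
    (hn : 1 ≤ n) (hw : HasCyclicLength w n) (hf : IsFricke w f) : bitSize f ≤ 640 * n ^ 4 := by
  obtain ⟨L, -, hL, hconj⟩ := hw
  have h1 : IsFricke (FreeGroup.mk L) f := hf.of_isConj hconj
  have h2 := isFricke_unique h1 (isFricke_mk L)
  have h3 := bd_trPoly L
  rw [← h2, hL] at h3
  have h4 := bitSize_le h3
  have h5 : (2 * n + 1 + 1) ^ 3 ≤ (4 * n) ^ 3 := Nat.pow_le_pow_left (by omega) 3
  have h6 : 3 * (n + 1) + 1 ≤ 10 * n := by omega
  calc bitSize f ≤ (2 * n + 1 + 1) ^ 3 * (3 * (n + 1) + 1) := h4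
    _ ≤ (4 * n) ^ 3 * (10 * n) := Nat.mul_le_mul h5 h6
    _ = 640 * n ^ 4 := by ring

theorem bddAbove_set {n : ℕ} (hn : 1 ≤ n) :
    BddAbove {s : ℕ | ∃ (w : FreeGroup (Fin 2)) (f : MvPolynomial (Fin 3) ℤ),
      HasCyclicLength w n ∧ IsFricke w f ∧ s = bitSize f} := by
  refine ⟨640 * n ^ 4, ?_⟩
  rintro s ⟨w, f, hw, hf, rfl⟩
  exact upper_bound hn hw hf

theorem S_le {n : ℕ} (hn : 1 ≤ n) : S n ≤ 640 * n ^ 4 := by
  apply csSup_le'
  rintro s ⟨w, f, hw, hf, rfl⟩
  exact upper_bound hn hw hf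

end Pool.Agent.Work.MP_9614a6_lc
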