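import Pool.Agent.Work.MP_9614a6_lc.Lower
import Pool.Agent.Work.MP_9614a6_lc.Upper

set_option autoImplicit false

namespace Pool.Agent.Work.MP_9614a6_lc

open MvPolynomial

theorem famPoly_coeff {p q r a b c : ℕ} {m : Fin 3 →₀ ℕ}
    (h0 : m 0 + 2 * (a + 1) = p + 1) (h1 : m 1 + 2 * (b + 1) = q + 1)
    (h2 : m 2 + 2 * (c + 1) = r + 3) :
    coeff m (famPoly p q r) = (-1) ^ (a + b + c + 1) *
      (((m 0 + (a + 1)).choose (a + 1) * (m 1 + (b + 1)).choose (b + 1) *
        (m 2 + c).choose (c + 1) +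
        (m 2 + c).choose c * ((m 0 + (a + 1)).choose (a + 1) * (m 1 + b).choose b +
          (m 0 + a).choose a * (m 1 + (b + 1)).choose (b + 1)) : ℕ) : ℤ) := by
  rw [famPoly]
  simp only [coeff_add, coeff_sub, coeff_uni_mul]
  have P2 := cheb_coeff (p + 2) (m 0) (a + 1) (by omega)
  have P0 := cheb_coeff p (m 0) a (by omega)
  have Q2 := cheb_coeff (q + 2) (m 1) (b + 1) (by omega)
  have Q0 := cheb_coeff q (m 1) b (by omega)
  have R4 := cheb_coeff (r + 4) (m 2) (c + 1) (by omega)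
  have R2 := cheb_coeff (r + 2) (m 2) c (by omega)
  have P3 : (cheb (p + 3)).coeff (m 0) = 0 := cheb_coeff_parity _ _ ⟨m 0 + a + 2, by omega⟩
  have P1 : (cheb (p + 1)).coeff (m 0) = 0 := cheb_coeff_parity _ _ ⟨m 0 + a + 1, by omega⟩
  rw [P2, P0, Q2, Q0, R4, R2, P3, P1]
  have hpascal : (m 2 + (c + 1)).choose (c + 1) = (m 2 + c).choose c + (m 2 + c).choose (c + 1) := by
    rw [← add_assoc, Nat.choose_succ_succ]
  rw [hpascal]
  push_cast
  ring

theorem famPoly_coeff_natAbs {p q r a b c : ℕ} {m : Fin 3 →₀ ℕ}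
    (h0 : m 0 + 2 * (a + 1) = p + 1) (h1 : m 1 + 2 * (b + 1) = q + 1)
    (h2 : m 2 + 2 * (c + 1) = r + 3) (ha : a + 1 ≤ m 0) (hb : b + 1 ≤ m 1) (hc : c + 2 ≤ m 2) :
    2 ^ (a + b + c) ≤ (coeff m (famPoly p q r)).natAbs := by
  rw [famPoly_coeff h0 h1 h2, Int.natAbs_mul, Int.natAbs_pow, Int.natAbs_neg, Int.natAbs_one,
    one_pow, one_mul, Int.natAbs_natCast]
  have e1 := two_pow_le_choose (m 0) (a + 1) ha
  have e2 := two_pow_le_choose (m 1) (b + 1) hb
  have e3 := two_pow_le_choose (m 2 - 1) (c + 1) (by omega)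
  have e4 : m 2 - 1 + (c + 1) = m 2 + c := by omega
  rw [e4] at e3
  calc 2 ^ (a + b + c) ≤ 2 ^ (a + 1) * 2 ^ (b + 1) * 2 ^ (c + 1) := by
        rw [← pow_add, ← pow_add]
        exact Nat.pow_le_pow_right (by norm_num) (by omega)
    _ ≤ (m 0 + (a + 1)).choose (a + 1) * (m 1 + (b + 1)).choose (b + 1) *
        (m 2 + c).choose (c + 1) := Nat.mul_le_mul (Nat.mul_le_mul e1 e2) e3
    _ ≤ _ := Nat.le_add_right _ _

/-- The monomial with given exponents. -/
noncomputable def mon (i j k : ℕ) : Fin 3 →₀ ℕ := Finsupp.equivFunOnFinite.symm ![i, j, k]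

theorem mon_zero (i j k : ℕ) : mon i j k 0 = i := by simp [mon]
theorem mon_one (i j k : ℕ) : mon i j k 1 = j := by simp [mon]
theorem mon_two (i j k : ℕ) : mon i j k 2 = k := by simp [mon]

theorem bitSize_fam {n m : ℕ} (hm : 1 ≤ m) (hn : 24 * m + 8 ≤ n) :
    3 * m ^ 4 ≤ bitSize (famPoly (n - 18 * m - 8) (6 * m) (6 * m)) := by
  set p := n - 18 * m - 8 with hp
  set q := 6 * m with hq
  set f := famPoly p q q with hf
  let T : Finset (ℕ × ℕ × ℕ) := Finset.Ico m (2 * m) ×ˢ (Finset.Ico m (2 * m) ×ˢ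
    Finset.Ico m (2 * m))
  let g : ℕ × ℕ × ℕ → (Fin 3 →₀ ℕ) := fun t =>
    mon (p + 1 - 2 * (t.1 + 1)) (q + 1 - 2 * (t.2.1 + 1)) (q + 3 - 2 * (t.2.2 + 1))
  have hT : ∀ t ∈ T, (m ≤ t.1 ∧ t.1 < 2 * m) ∧ (m ≤ t.2.1 ∧ t.2.1 < 2 * m) ∧
      (m ≤ t.2.2 ∧ t.2.2 < 2 * m) := by
    intro t ht
    simpa [T] using ht
  have hbig : ∀ t ∈ T, 2 ^ (3 * m) ≤ (coeff (g t) f).natAbs := by
    intro t ht
    obtain ⟨h1, h2, h3⟩ := hT t ht
    have := famPoly_coeff_natAbs (p := p) (q := q) (r := q) (a := t.1) (b := t.2.1) (c := t.2.2)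
      (m := g t) (by rw [mon_zero]; omega) (by rw [mon_one]; omega) (by rw [mon_two]; omega)
      (by rw [mon_zero]; omega) (by rw [mon_one]; omega) (by rw [mon_two]; omega)
    exact (Nat.pow_le_pow_right (by norm_num) (by omega)).trans this
  have hinj : Set.InjOn g T := by
    intro t ht t' ht' h
    obtain ⟨h1, h2, h3⟩ := hT t (by simpa using ht)
    obtain ⟨h1', h2', h3'⟩ := hT t' (by simpa using ht')
    have e0 := DFunLike.congr_fun h 0
    have e1 := DFunLike.congr_fun h 1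
    have e2 := DFunLike.congr_fun h 2
    simp only [g, mon_zero, mon_one, mon_two] at e0 e1 e2
    ext
    · omega
    · omega
    · omega
  have hsub : T.image g ⊆ f.support := by
    intro x hx
    obtain ⟨t, ht, rfl⟩ := Finset.mem_image.mp hx
    rw [mem_support_iff]
    intro h0
    have := hbig t ht
    rw [h0] at this
    simp at this
  calc 3 * m ^ 4 = ∑ t ∈ T, 3 * m := by
        have : T.card = m ^ 3 := by
          simp only [T, Finset.card_product, Nat.card_Ico]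
          have : 2 * m - m = m := by omega
          rw [this]; ring
        rw [Finset.sum_const, this, smul_eq_mul]
        ring
    _ ≤ ∑ t ∈ T, (Nat.digits 2 (coeff (g t) f).natAbs).length := by
        apply Finset.sum_le_sum
        intro t ht
        apply le_of_lt
        rw [Nat.lt_digits_length_iff (by norm_num)]
        exact hbig t ht
    _ = ∑ x ∈ T.image g, (Nat.digits 2 (coeff x f).natAbs).length := by
        rw [Finset.sum_image hinj]
    _ ≤ bitSize f := Finset.sum_le_sum_of_subset hsub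

theorem le_S {n m : ℕ} (hm : 1 ≤ m) (hn : 24 * m + 8 ≤ n) : 3 * m ^ 4 ≤ S n := by
  refine (bitSize_fam hm hn).trans ?_
  apply le_csSup (bddAbove_set (by omega))
  refine ⟨FreeGroup.mk (famWord (n - 18 * m - 8) (6 * m) (6 * m)), _, ?_, isFricke_fam _ _ _, rfl⟩
  refine ⟨famWord (n - 18 * m - 8) (6 * m) (6 * m), ?_, ?_, IsConj.refl _⟩
  · exact isCyclicallyReduced_of_snd (famWord_snd _ _ _)
  · rw [famWord_length]; omega

theorem S_isTheta : Asymptotics.IsTheta Filter.atTop (fun n : ℕ => (S n : ℝ))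
    (fun n : ℕ => (n : ℝ) ^ 4) := by
  constructor
  · apply Asymptotics.IsBigO.of_bound 640
    filter_upwards [Filter.eventually_ge_atTop 1] with n hn
    have := S_le hn
    rw [Real.norm_of_nonneg (by positivity), Real.norm_of_nonneg (by positivity)]
    exact_mod_cast this
  · apply Asymptotics.IsBigO.of_bound (64 ^ 4)
    filter_upwards [Filter.eventually_ge_atTop 32] with n hn
    have h := le_S (n := n) (m := n / 32) (by omega) (by omega)
    rw [Real.norm_of_nonneg (by positivity), Real.norm_of_nonneg (by positivity)]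
    have h2 : n ^ 4 ≤ (64 * (n / 32)) ^ 4 := Nat.pow_le_pow_left (by omega) 4
    have h3 : n ^ 4 ≤ 64 ^ 4 * S n := by
      calc n ^ 4 ≤ (64 * (n / 32)) ^ 4 := h2
        _ = 64 ^ 4 * (n / 32) ^ 4 := by ring
        _ ≤ 64 ^ 4 * S n := Nat.mul_le_mul_left _ (by omega)
    exact_mod_cast h3

end Pool.Agent.Work.MP_9614a6_lc
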