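import Pool.Agent.Work.MP_9614a6_lc.Defs
import Pool.Agent.Work.MP_9614a6_lc.Cheb

set_option autoImplicit false

namespace Pool.Agent.Work.MP_9614a6_lc

open Matrix

abbrev M2 := Matrix (Fin 2) (Fin 2) ℂ

theorem tr_eq (A : SL2C) : tr A = (A : M2) 0 0 + (A : M2) 1 1 := by
  simp [tr, Matrix.trace_fin_two]

theorem det_eq (A : SL2C) : (A : M2) 0 0 * (A : M2) 1 1 - (A : M2) 0 1 * (A : M2) 1 0 = 1 := by
  rw [← Matrix.det_fin_two]; exact A.2

/-- Cayley-Hamilton. -/
theorem mul_self (A : SL2C) : (A : M2) * (A : M2) = tr A • (A : M2) - 1 := by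
  have h := det_eq A
  ext i j
  fin_cases i <;> fin_cases j <;>
    simp [Matrix.mul_apply, Fin.sum_univ_two, tr_eq] <;>
    first
    | ring1
    | linear_combination (-1 : ℂ) * h

theorem inv_eq (A : SL2C) : ((A⁻¹ : SL2C) : M2) = tr A • (1 : M2) - (A : M2) := by
  rw [Matrix.SpecialLinearGroup.coe_inv]
  ext i j
  fin_cases i <;> fin_cases j <;>
    simp [Matrix.adjugate_fin_two, tr_eq]

theorem BA_eq (A B : SL2C) : (B : M2) * (A : M2) =
    -((A : M2) * (B : M2)) + tr A • (B : M2) + tr B • (A : M2) +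
      (tr (A * B) - tr A * tr B) • (1 : M2) := by
  ext i j
  fin_cases i <;> fin_cases j <;>
    simp [Matrix.mul_apply, Fin.sum_univ_two, tr_eq] <;> ring

theorem BAB_eq (A B : SL2C) : (B : M2) * ((A : M2) * (B : M2)) =
    (A : M2) + tr (A * B) • (B : M2) - tr A • (1 : M2) := by
  rw [← mul_assoc, BA_eq]
  simp only [add_mul, neg_mul, mul_assoc, smul_mul_assoc, one_mul, mul_self]
  simp only [mul_sub, mul_smul_comm, mul_one]
  module


/-- The representation of a matrix in the basis `1, A, B, A * B` with polynomial coefficients. -/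
def Rep (A B : SL2C) (M : M2) (p : Fin 4 → MvPolynomial (Fin 3) ℤ) : Prop :=
  M = MvPolynomial.aeval ![tr A, tr B, tr (A * B)] (p 0) • (1 : M2) +
    MvPolynomial.aeval ![tr A, tr B, tr (A * B)] (p 1) • (A : M2) +
    MvPolynomial.aeval ![tr A, tr B, tr (A * B)] (p 2) • (B : M2) +
    MvPolynomial.aeval ![tr A, tr B, tr (A * B)] (p 3) • ((A : M2) * (B : M2))

open MvPolynomial in
/-- Left multiplication by `A`. -/
noncomputable def stepA (p : Fin 4 → MvPolynomial (Fin 3) ℤ) : Fin 4 → MvPolynomial (Fin 3) ℤ :=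
  ![-p 1, p 0 + X 0 * p 1, -p 3, p 2 + X 0 * p 3]

open MvPolynomial in
/-- Left multiplication by `A⁻¹`. -/
noncomputable def stepA' (p : Fin 4 → MvPolynomial (Fin 3) ℤ) : Fin 4 → MvPolynomial (Fin 3) ℤ :=
  ![X 0 * p 0 + p 1, -p 0, X 0 * p 2 + p 3, -p 2]

open MvPolynomial in
/-- Left multiplication by `B`. -/
noncomputable def stepB (p : Fin 4 → MvPolynomial (Fin 3) ℤ) : Fin 4 → MvPolynomial (Fin 3) ℤ :=
  ![-p 2 + (X 2 * p 1 + (-(X 0 * (X 1 * p 1)) + -(X 0 * p 3))), X 1 * p 1 + p 3,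
    p 0 + (X 0 * p 1 + (X 1 * p 2 + X 2 * p 3)), -p 1]

open MvPolynomial in
/-- Left multiplication by `B⁻¹`. -/
noncomputable def stepB' (p : Fin 4 → MvPolynomial (Fin 3) ℤ) : Fin 4 → MvPolynomial (Fin 3) ℤ :=
  ![X 1 * p 0 + (p 2 + (-(X 2 * p 1) + (X 0 * (X 1 * p 1) + X 0 * p 3))), -p 3,
    -p 0 + (-(X 0 * p 1) + -(X 2 * p 3)), X 1 * p 3 + p 1]

theorem rep_one (A B : SL2C) : Rep A B 1 ![1, 0, 0, 0] := by
  simp [Rep]

theorem rep_stepA {A B : SL2C} {M : M2} {p : Fin 4 → MvPolynomial (Fin 3) ℤ}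
    (h : Rep A B M p) : Rep A B ((A : M2) * M) (stepA p) := by
  unfold Rep at h ⊢
  rw [h]
  simp only [stepA, mul_add, mul_smul_comm, mul_one, mul_self, ← mul_assoc]
  simp [sub_mul]
  module

theorem rep_stepA' {A B : SL2C} {M : M2} {p : Fin 4 → MvPolynomial (Fin 3) ℤ}
    (h : Rep A B M p) : Rep A B (((A⁻¹ : SL2C) : M2) * M) (stepA' p) := by
  rw [inv_eq, sub_mul]
  have h2 := rep_stepA h
  unfold Rep at h h2 ⊢
  rw [h2]
  rw [smul_mul_assoc, one_mul, h]
  simp [stepA, stepA']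
  module

theorem rep_stepB {A B : SL2C} {M : M2} {p : Fin 4 → MvPolynomial (Fin 3) ℤ}
    (h : Rep A B M p) : Rep A B ((B : M2) * M) (stepB p) := by
  unfold Rep at h ⊢
  rw [h]
  simp only [stepB, mul_add, mul_smul_comm, mul_one]
  rw [BAB_eq, BA_eq, mul_self]
  simp
  module

theorem rep_stepB' {A B : SL2C} {M : M2} {p : Fin 4 → MvPolynomial (Fin 3) ℤ}
    (h : Rep A B M p) : Rep A B (((B⁻¹ : SL2C) : M2) * M) (stepB' p) := by
  rw [inv_eq, sub_mul]
  have h2 := rep_stepB h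
  unfold Rep at h h2 ⊢
  rw [h2]
  rw [smul_mul_assoc, one_mul, h]
  simp [stepB, stepB']
  module

/-- The coefficients of a word. -/
noncomputable def wordRep : List (Fin 2 × Bool) → (Fin 4 → MvPolynomial (Fin 3) ℤ)
  | [] => ![1, 0, 0, 0]
  | (0, true) :: L => stepA (wordRep L)
  | (0, false) :: L => stepA' (wordRep L)
  | (1, true) :: L => stepB (wordRep L)
  | (1, false) :: L => stepB' (wordRep L)

theorem rep_word (A B : SL2C) : ∀ L : List (Fin 2 × Bool),
    Rep A B ((FreeGroup.lift ![A, B] (FreeGroup.mk L) : SL2C) : M2) (wordRep L)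
  | [] => by simpa [wordRep] using rep_one A B
  | (0, true) :: L => by
    have h := rep_stepA (rep_word A B L)
    rw [wordRep]
    convert h using 1
    rw [FreeGroup.lift_mk, FreeGroup.lift_mk]
    simp
  | (0, false) :: L => by
    have h := rep_stepA' (rep_word A B L)
    rw [wordRep]
    convert h using 1
    rw [FreeGroup.lift_mk, FreeGroup.lift_mk]
    simp
  | (1, true) :: L => by
    have h := rep_stepB (rep_word A B L)
    rw [wordRep]
    convert h using 1
    rw [FreeGroup.lift_mk, FreeGroup.lift_mk]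
    simp
  | (1, false) :: L => by
    have h := rep_stepB' (rep_word A B L)
    rw [wordRep]
    convert h using 1
    rw [FreeGroup.lift_mk, FreeGroup.lift_mk]
    simp

open MvPolynomial in
/-- The trace polynomial of a representation. -/
noncomputable def trPoly (p : Fin 4 → MvPolynomial (Fin 3) ℤ) : MvPolynomial (Fin 3) ℤ :=
  p 0 + (p 0 + (X 0 * p 1 + (X 1 * p 2 + X 2 * p 3)))

theorem isFricke_mk (L : List (Fin 2 × Bool)) :
    IsFricke (FreeGroup.mk L) (trPoly (wordRep L)) := by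
  intro A B
  have h := rep_word A B L
  unfold Rep at h
  have h3 : tr (A * B) = Matrix.trace ((A : M2) * (B : M2)) := by
    simp [tr]
  rw [tr, h]
  simp only [Matrix.trace_add, Matrix.trace_smul, Matrix.trace_one, ← h3]
  simp [trPoly, tr]
  ring

theorem exists_isFricke (w : FreeGroup (Fin 2)) : ∃ f, IsFricke w f := by
  induction w using Quot.inductionOn with
  | h L => exact ⟨_, isFricke_mk L⟩

/-- Every triple of complex numbers is `(Tr A, Tr B, Tr (A * B))` for some `A, B ∈ SL(2, ℂ)`. -/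
theorem exists_traces (x y z : ℂ) : ∃ A B : SL2C, tr A = x ∧ tr B = y ∧ tr (A * B) = z := by
  obtain ⟨β, hβ⟩ : ∃ β : ℂ, β * β - z * β + 1 = 0 := by
    obtain ⟨s, hs⟩ := IsAlgClosed.exists_pow_nat_eq (z ^ 2 - 4) (n := 2) (by norm_num)
    refine ⟨(z + s) / 2, ?_⟩
    linear_combination (1 / 4 : ℂ) * hs
  have hβ0 : β ≠ 0 := by
    rintro rfl
    simp at hβ
  refine ⟨⟨!![x, -1; 1, 0], by simp [Matrix.det_fin_two]⟩,
    ⟨!![0, β; -β⁻¹, y], by simp [Matrix.det_fin_two, hβ0]⟩, ?_, ?_, ?_⟩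
  · simp [tr, Matrix.trace_fin_two]
  · simp [tr, Matrix.trace_fin_two]
  · simp [tr, Matrix.trace_fin_two]
    field_simp
    linear_combination hβ

theorem isFricke_unique {w : FreeGroup (Fin 2)} {f g : MvPolynomial (Fin 3) ℤ}
    (hf : IsFricke w f) (hg : IsFricke w g) : f = g := by
  have hinj : Function.Injective (MvPolynomial.map (σ := Fin 3) (Int.castRingHom ℂ)) :=
    MvPolynomial.map_injective _ Int.cast_injective
  apply hinj
  apply MvPolynomial.funext
  intro v
  obtain ⟨A, B, hA, hB, hAB⟩ := exists_traces (v 0) (v 1) (v 2)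
  have h := (hf A B).symm.trans (hg A B)
  have hv : v = ![tr A, tr B, tr (A * B)] := by
    ext i
    fin_cases i <;> simp [hA, hB, hAB]
  rw [hv, MvPolynomial.eval_map, MvPolynomial.eval_map]
  exact h

theorem existsUnique_isFricke (w : FreeGroup (Fin 2)) : ∃! f, IsFricke w f := by
  obtain ⟨f, hf⟩ := exists_isFricke w
  exact ⟨f, hf, fun g hg => isFricke_unique hg hf⟩

theorem IsFricke.of_isConj {w w' : FreeGroup (Fin 2)} {f : MvPolynomial (Fin 3) ℤ}
    (h : IsConj w w') (hf : IsFricke w f) : IsFricke w' f := by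
  intro A B
  rw [← hf A B]
  obtain ⟨c, hc⟩ := isConj_iff.mp h
  rw [← hc]
  simp only [map_mul, map_inv, tr]
  rw [Matrix.SpecialLinearGroup.coe_mul, Matrix.trace_mul_comm, ← Matrix.SpecialLinearGroup.coe_mul]
  congr 2
  group

end Pool.Agent.Work.MP_9614a6_lc
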